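import Pool.Agent.Helper14.SP2.Defs

/-!
# SP2-C1: choosing neighbours which are good for many objects
-/

set_option autoImplicit false

namespace Pool.Agent.Helper14.SP

open Finset Classical

/-- number of injective tuples all of whose entries are related to `p` -/
theorem pick_emb {σ α : Type} [Fintype σ] (A : Finset α) (R : α → Prop) (c d : ℕ)
    (hd : 2 * c * Fintype.card σ ≤ d) (hc : d ≤ c * #{a ∈ A | R a}) :
    d ^ Fintype.card σ ≤ (2 * c) ^ Fintype.card σ *
      #{e ∈ (univ : Finset (σ ↪ {x // x ∈ A})) | ∀ i, R (e i : α)} := by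
  have hcard : Fintype.card (σ ↪ {x // x ∈ A.filter R}) ≤
      #{e ∈ (univ : Finset (σ ↪ {x // x ∈ A})) | ∀ i, R (e i : α)} := by
    rw [← card_univ]
    refine card_le_card_of_injOn
      (fun f => ⟨fun i => ⟨(f i : α), (mem_filter.mp (f i).2).1⟩, fun i j h => by
        have h1 : ((f i : {x // x ∈ A.filter R}) : α) = f j := by
          have h2 := congrArg Subtype.val h
          exact h2
        exact f.injective (Subtype.ext h1)⟩) ?_ ?_
    · intro f _
      simp only [coe_filter, mem_univ, true_and, Set.mem_ofPred_eq]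
      intro i
      exact (mem_filter.mp (f i).2).2
    · intro f _ g _ h
      ext i
      have h1 := congrArg (fun e : σ ↪ {x // x ∈ A} => ((e i : {x // x ∈ A}) : α)) h
      exact h1
  rw [Fintype.card_embedding_eq, Fintype.card_coe] at hcard
  set s := Fintype.card σ with hs
  set D := #(A.filter R) with hD
  have h1 : (D + 1 - s) ^ s ≤ D.descFactorial s := Nat.pow_sub_le_descFactorial D s
  have h2 : d ≤ 2 * c * (D + 1 - s) := by
    rcases Nat.eq_zero_or_pos c with h0 | h0
    · subst h0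
      simp at hc
      simp [hc]
    · rcases Nat.eq_zero_or_pos d with hd0 | hd0
      · rw [hd0]; exact Nat.zero_le _
      · have h3 : s ≤ D + 1 := by
          by_contra hlt
          push Not at hlt
          have h4 : D + 1 ≤ s := by omega
          have h5 : 2 * c * (D + 1) ≤ 2 * c * s := Nat.mul_le_mul_left _ h4
          nlinarith
        rw [Nat.mul_sub]
        have h5 : 2 * c * (D + 1) = 2 * (c * D) + 2 * c := by ring
        rw [h5]
        omega
  calc d ^ s ≤ (2 * c * (D + 1 - s)) ^ s := Nat.pow_le_pow_left h2 s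
    _ = (2 * c) ^ s * (D + 1 - s) ^ s := by rw [mul_pow]
    _ ≤ (2 * c) ^ s * _ := Nat.mul_le_mul_left _ (h1.trans hcard)

/-- C0: choosing neighbours which are good for many objects -/
theorem pick (σ : Type) [Fintype σ] (K K' E : ℕ) : ∃ E1 d0 : ℕ, ∀ {α β : Type} (A : Finset α)
    (P : Finset β) (rel : α → β → Prop) (d M : ℕ), d0 ≤ d → #A ≤ K * d → #P ≤ K' * M →
    d * M ≤ E * #{q ∈ A ×ˢ P | rel q.1 q.2} → 1 ≤ M →
    ∃ a : σ → α, Function.Injective a ∧ (∀ i, a i ∈ A) ∧ M ≤ E1 * #{p ∈ P | ∀ i, rel (a i) p} := by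
  set s := Fintype.card σ with hs
  refine ⟨2 * E * K * (2 * (2 * E * K') * K) ^ s, 2 * (2 * E * K') * s + 1, ?_⟩
  intro α β A P rel d M hd hA hP hE hM
  have hd1 : 1 ≤ d := le_trans (Nat.le_add_left 1 _) hd
  by_contra hcon
  push Not at hcon
  have hpairs : #{q ∈ A ×ˢ P | rel q.1 q.2} = ∑ p ∈ P, #{a ∈ A | rel a p} := by
    rw [card_filter, sum_product_right]
    refine sum_congr rfl fun p _ => ?_
    rw [card_filter]
  rw [hpairs] at hE
  have hpos : 1 ≤ d * M := Nat.mul_pos hd1 hM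
  have hE0 : 1 ≤ E := by
    rcases Nat.eq_zero_or_pos E with h | h
    · rw [h] at hE; omega
    · exact h
  have hK'0 : 1 ≤ K' := by
    rcases Nat.eq_zero_or_pos K' with h | h
    · rw [h, zero_mul] at hP
      have : P = ∅ := card_eq_zero.mp (Nat.le_zero.mp hP)
      rw [this] at hE
      simp at hE
      omega
    · exact h
  have hNA : ∀ p, #{a ∈ A | rel a p} ≤ K * d := fun p => (card_filter_le _ _).trans hA
  set G := {p ∈ P | d ≤ 2 * E * K' * #{a ∈ A | rel a p}} with hG
  have hsplit : ∑ p ∈ P, #{a ∈ A | rel a p} =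
      ∑ p ∈ G, #{a ∈ A | rel a p} +
        ∑ p ∈ P with ¬ d ≤ 2 * E * K' * #{a ∈ A | rel a p}, #{a ∈ A | rel a p} :=
    (sum_filter_add_sum_filter_not P _ _).symm
  have hbad : 2 * E * ∑ p ∈ P with ¬ d ≤ 2 * E * K' * #{a ∈ A | rel a p}, #{a ∈ A | rel a p} ≤
      M * d := by
    have h1 : 2 * E * K' *
        ∑ p ∈ P with ¬ d ≤ 2 * E * K' * #{a ∈ A | rel a p}, #{a ∈ A | rel a p} ≤ #P * d := by
      rw [mul_sum]
      have h0 : ∀ p ∈ P.filter (fun p => ¬ d ≤ 2 * E * K' * #{a ∈ A | rel a p}),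
          2 * E * K' * #{a ∈ A | rel a p} ≤ d := by
        intro p hp
        have := (mem_filter.mp hp).2
        push Not at this
        exact this.le
      refine (sum_le_sum h0).trans ?_
      rw [sum_const, smul_eq_mul]
      exact Nat.mul_le_mul_right _ (card_filter_le _ _)
    have h2 : #P * d ≤ K' * M * d := Nat.mul_le_mul_right _ hP
    have h3 := h1.trans h2
    have h4 : K' * (2 * E *
        ∑ p ∈ P with ¬ d ≤ 2 * E * K' * #{a ∈ A | rel a p}, #{a ∈ A | rel a p}) ≤
        K' * (M * d) := by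
      calc _ = 2 * E * K' *
            ∑ p ∈ P with ¬ d ≤ 2 * E * K' * #{a ∈ A | rel a p}, #{a ∈ A | rel a p} := by ring
        _ ≤ K' * M * d := h3
        _ = K' * (M * d) := by ring
    exact Nat.le_of_mul_le_mul_left h4 hK'0
  have hgood : M ≤ 2 * E * K * #G := by
    have h1 : ∑ p ∈ G, #{a ∈ A | rel a p} ≤ #G * (K * d) := by
      refine (sum_le_sum fun p _ => hNA p).trans ?_
      rw [sum_const, smul_eq_mul]
    have h2 : d * M ≤ 2 * E * ∑ p ∈ G, #{a ∈ A | rel a p} := by
      rw [hsplit] at hE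
      nlinarith
    have h3 : d * M ≤ d * (2 * E * K * #G) := by
      calc d * M ≤ 2 * E * ∑ p ∈ G, #{a ∈ A | rel a p} := h2
        _ ≤ 2 * E * (#G * (K * d)) := Nat.mul_le_mul_left _ h1
        _ = d * (2 * E * K * #G) := by ring
    exact Nat.le_of_mul_le_mul_left h3 hd1
  set T : Finset (σ ↪ {x // x ∈ A}) := univ with hT
  have hTcard : #T ≤ (K * d) ^ s := by
    rw [hT, card_univ, Fintype.card_embedding_eq, Fintype.card_coe]
    exact (Nat.descFactorial_le_pow _ _).trans (Nat.pow_le_pow_left hA _)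
  set X := ∑ e ∈ T, #{p ∈ P | ∀ i, rel (e i : α) p} with hX
  have hX2 : X = ∑ p ∈ P, #{e ∈ T | ∀ i, rel (e i : α) p} := by
    rw [hX]
    simp only [card_filter]
    rw [sum_comm]
  have hXG : #G * d ^ s ≤ (2 * (2 * E * K')) ^ s * X := by
    rw [hX2, mul_sum]
    have h1 : ∀ p ∈ G, d ^ s ≤ (2 * (2 * E * K')) ^ s * #{e ∈ T | ∀ i, rel (e i : α) p} := by
      intro p hp
      exact pick_emb A (fun a => rel a p) (2 * E * K') d (by rw [← hs]; omega) (mem_filter.mp hp).2
    calc #G * d ^ s = ∑ p ∈ G, d ^ s := by rw [sum_const, smul_eq_mul]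
      _ ≤ ∑ p ∈ G, (2 * (2 * E * K')) ^ s * #{e ∈ T | ∀ i, rel (e i : α) p} := sum_le_sum h1
      _ ≤ ∑ p ∈ P, (2 * (2 * E * K')) ^ s * #{e ∈ T | ∀ i, rel (e i : α) p} :=
        sum_le_sum_of_subset (filter_subset _ _)
  have hlow : M * d ^ s ≤ 2 * E * K * (2 * (2 * E * K')) ^ s * X := by
    calc M * d ^ s ≤ 2 * E * K * #G * d ^ s := Nat.mul_le_mul_right _ hgood
      _ = 2 * E * K * (#G * d ^ s) := by ring
      _ ≤ 2 * E * K * ((2 * (2 * E * K')) ^ s * X) := Nat.mul_le_mul_left _ hXG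
      _ = _ := by ring
  have hlt : ∀ e ∈ T, 2 * E * K * (2 * (2 * E * K') * K) ^ s *
      #{p ∈ P | ∀ i, rel (e i : α) p} + 1 ≤ M := by
    intro e _
    have := hcon (fun i => (e i : α)) (fun i j h => e.injective (Subtype.ext h))
      (fun i => (e i).2)
    omega
  have hsum : 2 * E * K * (2 * (2 * E * K') * K) ^ s * X + #T ≤ #T * M := by
    have h1 := sum_le_sum hlt
    rw [sum_add_distrib, ← mul_sum, sum_const, sum_const, smul_eq_mul, smul_eq_mul, mul_one] at h1
    exact h1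
  have hbig : M * (K * d) ^ s ≤ 2 * E * K * (2 * (2 * E * K') * K) ^ s * X := by
    calc M * (K * d) ^ s = K ^ s * (M * d ^ s) := by rw [mul_pow]; ring
      _ ≤ K ^ s * (2 * E * K * (2 * (2 * E * K')) ^ s * X) := Nat.mul_le_mul_left _ hlow
      _ = 2 * E * K * (2 * (2 * E * K') * K) ^ s * X := by rw [mul_pow (2 * (2 * E * K')) K]; ring
  have hTM : #T * M ≤ M * (K * d) ^ s := by
    rw [mul_comm]; exact Nat.mul_le_mul_left _ hTcard
  have hT0 : #T = 0 := by omega
  have hX0 : X = 0 := by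
    rw [hX, card_eq_zero.mp hT0, sum_empty]
  rw [hX0, mul_zero] at hlow
  have : 1 ≤ M * d ^ s := Nat.mul_pos hM (Nat.pow_pos hd1)
  omega

end Pool.Agent.Helper14.SP
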